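import Mathlib
import Pool.Agent.Q260.MG.Nu

/-! The magneto-spectral height of a graph with minimum degree at least `d` is at least
`d - 2 √(d-1)`. -/

open Pool.Agent.Q260.MG

namespace Pool.Agent.Results.MP_3489b6_co.MinDegreeBound

/-- `ν_d`: the infimum of `ν(G)` over all finite non-empty graphs with minimum degree at least
`d`. -/
noncomputable def nuInf (d : ℕ) : ℝ :=
  sInf {t : ℝ | ∃ (V : Type) (_ : Fintype V) (_ : Nonempty V) (G : SimpleGraph V)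
    (_ : DecidableRel G.Adj), (∀ v, d ≤ G.degree v) ∧ nu G = t}

lemma pos_of_three {d : ℕ} (hd : 3 ≤ d) : 0 < (d : ℝ) - 2 * Real.sqrt (d - 1) := by
  have hd' : (3 : ℝ) ≤ d := by exact_mod_cast hd
  have h1 : Real.sqrt (d - 1) < d / 2 := by
    rw [Real.sqrt_lt' (by linarith)]
    nlinarith
  linarith

lemma nuInf_ge {d : ℕ} (hd : 2 ≤ d) : (d : ℝ) - 2 * Real.sqrt (d - 1) ≤ nuInf d := by
  classical
  apply le_csInf
  · refine ⟨_, Fin (d + 1), inferInstance, inferInstance, ⊤, inferInstance, ?_, rfl⟩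
    intro v
    simp
  · rintro t ⟨V, _, _, G, _, hG, rfl⟩
    exact degree_bound G d hd hG

/-- `ν(G) ≥ d - 2 √(d-1)` for every finite graph `G` with minimum degree at least `d ≥ 3`; hence
`ν_d ≥ d - 2 √(d-1) > 0` for all `d ≥ 3`, in particular `ν_3 ≥ 3 - 2 √2 > 0`. -/
theorem result :
    0 < nuInf 3 ∧ 3 - 2 * Real.sqrt 2 ≤ nuInf 3 ∧
    (∀ d : ℕ, 3 ≤ d → 0 < (d : ℝ) - 2 * Real.sqrt (d - 1) ∧
      (d : ℝ) - 2 * Real.sqrt (d - 1) ≤ nuInf d) ∧
    (∀ (V : Type) [Fintype V] [Nonempty V] (G : SimpleGraph V) [DecidableRel G.Adj] (d : ℕ),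
      3 ≤ d → (∀ v, d ≤ G.degree v) → (d : ℝ) - 2 * Real.sqrt (d - 1) ≤ nu G) := by
  classical
  have h3 := nuInf_ge (d := 3) (by norm_num)
  have hp := pos_of_three (d := 3) le_rfl
  have e : ((3 : ℕ) : ℝ) - 2 * Real.sqrt (((3 : ℕ) : ℝ) - 1) = 3 - 2 * Real.sqrt 2 := by
    norm_num
  refine ⟨lt_of_lt_of_le hp h3, by rw [← e]; exact h3, ?_, ?_⟩
  · intro d hd
    exact ⟨pos_of_three hd, nuInf_ge (by omega)⟩
  · intro V _ _ G _ d hd hG
    exact degree_bound G d (by omega) hG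

end Pool.Agent.Results.MP_3489b6_co.MinDegreeBound
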